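import Mathlib

set_option autoImplicit false

namespace Pool.Agent.Results.MP_4bc86c_co.PowersOfTwo

/-- `c` restricted to the edges of the complete graph on `V` is a proper edge-colouring: two
different edges `ab`, `ad` with a common vertex get different colours. -/
def IsProper {V C : Type} (c : Sym2 V → C) : Prop :=
  ∀ a b d : V, a ≠ b → a ≠ d → b ≠ d → c s(a, b) ≠ c s(a, d)

/-- The number of colours that `c` uses on the edges of the complete graph on `V`. -/
noncomputable def numColours {V C : Type} (c : Sym2 V → C) : ℕ :=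
  (c '' (⊤ : SimpleGraph V).edgeSet).ncard

/-- `c` is an optimal edge-colouring of the complete graph on `V`: it is proper, and no proper
edge-colouring uses fewer colours. -/
def IsOptimal {V C : Type} (c : Sym2 V → C) : Prop :=
  IsProper c ∧ ∀ c' : Sym2 V → ℕ, IsProper c' → numColours c ≤ numColours c'

/-- The complete graph on `V`, coloured by `c`, has a rainbow cycle of length `m`. -/
def HasRainbowCycle {V C : Type} (c : Sym2 V → C) (m : ℕ) : Prop :=
  ∃ (u : V) (w : (⊤ : SimpleGraph V).Walk u u), w.IsCycle ∧ w.length = m ∧ (w.edges.map c).Nodup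

variable (k : ℕ)

/-- The group `(Z/2)^k`. -/
abbrev Z (k : ℕ) : Type := Fin k → ZMod 2

/-- The edge `xy` gets the colour `x + y`. -/
def sumColour : Sym2 (Z k) → Z k := Sym2.lift ⟨fun x y => x + y, fun x y => add_comm x y⟩

lemma add_self_zero (x : Z k) : x + x = 0 := by
  funext i
  exact CharTwo.add_self_eq_zero (x i)

lemma sumColour_mk (x y : Z k) : sumColour k s(x, y) = x + y := rfl

lemma isProper_sumColour : IsProper (sumColour k) := by
  intro a b d _ _ hbd h
  rw [sumColour_mk, sumColour_mk] at h
  exact hbd (add_left_cancel h)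

lemma card_Z : Fintype.card (Z k) = 2 ^ k := by
  simp [ZMod.card]

/-- every proper colouring of the complete graph on a finite set uses at least `n - 1` colours -/
lemma le_numColours {V C : Type} [Fintype V] [Nonempty V] (c : Sym2 V → C) (hc : IsProper c) :
    Fintype.card V - 1 ≤ numColours c := by
  classical
  obtain ⟨a⟩ := (inferInstance : Nonempty V)
  have hinj : Set.InjOn (fun b => c s(a, b)) {b | b ≠ a} := by
    intro b hb d hd h
    by_contra hbd
    exact hc a b d (Ne.symm hb) (Ne.symm hd) hbd h
  have h1 : ((fun b => c s(a, b)) '' {b | b ≠ a}).ncard = Fintype.card V - 1 := by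
    rw [Set.InjOn.ncard_image hinj]
    have : {b : V | b ≠ a} = ((Finset.univ.erase a : Finset V) : Set V) := by
      ext b; simp
    rw [this, Set.ncard_coe_finset, Finset.card_erase_of_mem (Finset.mem_univ a),
      Finset.card_univ]
  rw [← h1]
  refine Set.ncard_le_ncard ?_ (Set.Finite.image _ (Set.toFinite _))
  rintro x ⟨b, hb, rfl⟩
  refine ⟨s(a, b), ?_, rfl⟩
  rw [SimpleGraph.mem_edgeSet]
  exact (SimpleGraph.top_adj _ _).2 (Ne.symm hb)

lemma numColours_sumColour_le : numColours (sumColour k) ≤ 2 ^ k - 1 := by
  classical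
  have hsub : sumColour k '' (⊤ : SimpleGraph (Z k)).edgeSet ⊆
      ((Finset.univ.erase (0 : Z k) : Finset (Z k)) : Set (Z k)) := by
    rintro x ⟨e, he, rfl⟩
    induction e using Sym2.ind with
    | _ x y =>
      rw [SimpleGraph.mem_edgeSet, SimpleGraph.top_adj] at he
      rw [sumColour_mk, Finset.coe_erase, Finset.coe_univ, Set.mem_sdiff]
      refine ⟨Set.mem_univ _, fun h => he ?_⟩
      rw [Set.mem_singleton_iff] at h
      calc x = x + (y + y) := by rw [add_self_zero, add_zero]
        _ = (x + y) + y := by rw [add_assoc]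
        _ = y := by rw [h, zero_add]
  have := Set.ncard_le_ncard hsub (Finset.finite_toSet _)
  rwa [Set.ncard_coe_finset, Finset.card_erase_of_mem (Finset.mem_univ _), Finset.card_univ,
    card_Z] at this

lemma isOptimal_sumColour : IsOptimal (sumColour k) := by
  refine ⟨isProper_sumColour k, fun c' hc' => ?_⟩
  refine le_trans (numColours_sumColour_le k) ?_
  have := le_numColours c' hc'
  rwa [card_Z] at this

/-- the colours along a walk add up to the sum of its ends -/
lemma sum_walk {u v : Z k} (w : (⊤ : SimpleGraph (Z k)).Walk u v) :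
    (w.edges.map (sumColour k)).sum = u + v := by
  induction w with
  | nil => simp [add_self_zero]
  | @cons u v x h p ih =>
    rw [SimpleGraph.Walk.edges_cons, List.map_cons, List.sum_cons, ih, sumColour_mk]
    calc u + v + (v + x) = u + (v + v) + x := by abel
      _ = u + x := by rw [add_self_zero, add_zero]

/-- for `k ≥ 2` the elements of `(Z/2)^k` add up to `0` -/
lemma sum_univ (hk : 2 ≤ k) : ∑ x : Z k, x = 0 := by
  classical
  funext i
  rw [Finset.sum_apply, Pi.zero_apply]
  -- pair up `x` with `x + e_j`, where `j ≠ i`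
  obtain ⟨j, hj⟩ : ∃ j : Fin k, j ≠ i := by
    by_cases h : i.1 = 0
    · exact ⟨⟨1, by omega⟩, fun h' => by rw [← h'] at h; simp at h⟩
    · exact ⟨⟨0, by omega⟩, fun h' => by rw [← h'] at h; simp at h⟩
  refine Finset.sum_involution (fun x _ => Function.update x j (x j + 1)) ?_ ?_ ?_ ?_
  · intro x _
    rw [Function.update_of_ne (Ne.symm hj)]
    exact CharTwo.add_self_eq_zero _
  · intro x _ _ h
    have := congrFun h j
    simp at this
  · intro x _
    exact Finset.mem_univ _
  · intro x _
    funext l
    by_cases hl : l = j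
    · subst hl
      simp only [Function.update_self]
      rw [add_assoc, CharTwo.add_self_eq_zero, add_zero]
    · simp [Function.update_of_ne hl]

lemma no_cycle (hk : 2 ≤ k) : ¬ HasRainbowCycle (sumColour k) (2 ^ k - 2) := by
  classical
  rintro ⟨u, w, -, hlen, hnd⟩
  have h4 : 4 ≤ 2 ^ k := by
    calc 4 = 2 ^ 2 := by norm_num
      _ ≤ 2 ^ k := Nat.pow_le_pow_right (by norm_num) hk
  set S : Finset (Z k) := (w.edges.map (sumColour k)).toFinset with hS
  have hcard : S.card = 2 ^ k - 2 := by
    rw [hS, List.toFinset_card_of_nodup hnd, List.length_map, SimpleGraph.Walk.length_edges, hlen]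
  have hsum : ∑ x ∈ S, x = 0 := by
    rw [hS, List.sum_toFinset _ hnd, List.map_id', sum_walk, add_self_zero]
  have h0 : (0 : Z k) ∉ S := by
    intro h
    rw [hS, List.mem_toFinset, List.mem_map] at h
    obtain ⟨e, he, h⟩ := h
    have hadj := w.edges_subset_edgeSet he
    induction e using Sym2.ind with
    | _ x y =>
      rw [SimpleGraph.mem_edgeSet, SimpleGraph.top_adj] at hadj
      rw [sumColour_mk] at h
      apply hadj
      calc x = x + (y + y) := by rw [add_self_zero, add_zero]
        _ = (x + y) + y := by rw [add_assoc]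
        _ = y := by rw [h, zero_add]
  -- exactly one nonzero element is missing
  have hc1 : (Finset.univ \ insert 0 S).card = 1 := by
    rw [Finset.card_sdiff_of_subset (Finset.subset_univ _), Finset.card_univ, card_Z,
      Finset.card_insert_of_notMem h0, hcard]
    omega
  obtain ⟨a, ha⟩ := Finset.card_eq_one.1 hc1
  have ha0 : a ≠ 0 := by
    have : a ∈ Finset.univ \ insert 0 S := by rw [ha]; exact Finset.mem_singleton_self a
    rw [Finset.mem_sdiff, Finset.mem_insert, not_or] at this
    exact this.2.1
  have htot : ∑ x ∈ (Finset.univ \ insert 0 S), x + ∑ x ∈ insert 0 S, x = ∑ x : Z k, x :=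
    Finset.sum_sdiff (Finset.subset_univ _)
  rw [ha, Finset.sum_singleton, Finset.sum_insert h0, hsum, sum_univ k hk, add_zero, add_zero]
    at htot
  exact ha0 htot

/-- **Result** (negative answer to Q1 of MP_4bc86c_co). For every `k ≥ 3` the complete graph on
`n = 2 ^ k ≥ 8` vertices has an optimal edge-colouring without a rainbow cycle of length `n - 2`. -/
theorem result : ∀ k : ℕ, 3 ≤ k → ∃ (V : Type) (_ : Fintype V) (C : Type) (c : Sym2 V → C),
    Fintype.card V = 2 ^ k ∧ IsOptimal c ∧ numColours c = Fintype.card V - 1 ∧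
      ¬ HasRainbowCycle c (Fintype.card V - 2) := by
  intro k hk
  refine ⟨Z k, inferInstance, Z k, sumColour k, card_Z k, isOptimal_sumColour k, ?_, ?_⟩
  · refine le_antisymm ?_ (le_numColours _ (isProper_sumColour k))
    rw [card_Z]
    exact numColours_sumColour_le k
  · rw [card_Z]
    exact no_cycle k (by omega)

end Pool.Agent.Results.MP_4bc86c_co.PowersOfTwo
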